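import Pool.Agent.H218R3.Col3

set_option autoImplicit false

open Polynomial
open scoped ENNReal

namespace Pool.Agent.Results.MP_172a45_an.CollinearZeros

/-- The sum of the reciprocal distances from `a` to the critical points of `P`, listed with
multiplicity; it is `∞` if one of them is equal to `a`. -/
noncomputable def Sigma (P : ℂ[X]) (a : ℂ) : ℝ≥0∞ :=
  (P.derivative.roots.map fun ζ => (‖a - ζ‖ₑ)⁻¹).sum

/-- If all zeros of `P` lie in the closed unit disc and on a line, then for every zero `a` of `P`
the sum of the reciprocal distances from `a` to the critical points is at least `n - 1`. -/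
theorem result (P : ℂ[X]) (hn : 2 ≤ P.natDegree) (hz : ∀ z ∈ P.roots, ‖z‖ ≤ 1) (a : ℂ)
    (ha : a ∈ P.roots) (hline : ∃ u : ℂ, ∀ z ∈ P.roots, ∃ t : ℝ, z = a + t * u) :
    ((P.natDegree - 1 : ℕ) : ℝ≥0∞) ≤ Sigma P a := by
  have hd0 : P.derivative ≠ 0 := by
    intro h
    have := derivative_eq_zero.mp h
    omega
  by_cases hd : P.derivative.eval a = 0
  · have hmem : a ∈ P.derivative.roots := (mem_roots hd0).mpr hd
    obtain ⟨R, hR⟩ := Multiset.exists_cons_of_mem hmem
    unfold Sigma
    rw [hR, Multiset.map_cons, Multiset.sum_cons, sub_self, enorm_zero, ENNReal.inv_zero,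
      top_add]
    exact le_top
  · have h1 := Pool.Agent.H218R3.Col.poly_collinear ha hz hline hd
    have h2 : Sigma P a = ENNReal.ofReal (P.derivative.roots.map (fun w => ‖a - w‖⁻¹)).sum := by
      unfold Sigma
      have hne : ∀ w ∈ P.derivative.roots, a - w ≠ 0 := by
        intro w hw h0
        apply hd
        rw [sub_eq_zero.mp h0]
        exact (mem_roots hd0).mp hw
      revert hne
      generalize P.derivative.roots = M
      intro hne
      induction M using Multiset.induction_on with
      | empty => simp
      | cons w M ih =>
        rw [Multiset.map_cons, Multiset.sum_cons, Multiset.map_cons, Multiset.sum_cons,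
          ih (fun v hv => hne v (Multiset.mem_cons_of_mem hv)), ENNReal.ofReal_add (by positivity)]
        · congr 1
          rw [ENNReal.ofReal_inv_of_pos (norm_pos_iff.mpr (hne w (Multiset.mem_cons_self _ _))),
            ofReal_norm]
        · apply Multiset.sum_nonneg
          intro x hx
          obtain ⟨v, _, rfl⟩ := Multiset.mem_map.mp hx
          positivity
    rw [h2, ← ENNReal.ofReal_natCast]
    exact ENNReal.ofReal_le_ofReal h1

end Pool.Agent.Results.MP_172a45_an.CollinearZeros
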