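import Mathlib

set_option autoImplicit false

open Polynomial
open scoped ENNReal

namespace Pool.Agent.Results.MP_172a45_an.LensCriterion

/-- The sum of the reciprocal distances from `a` to the critical points of `P`, listed with
multiplicity; it is `∞` if one of them is equal to `a`. -/
noncomputable def Sigma (P : ℂ[X]) (a : ℂ) : ℝ≥0∞ :=
  (P.derivative.roots.map fun ζ => (‖a - ζ‖ₑ)⁻¹).sum

theorem crit_le {P : ℂ[X]} (hn : 2 ≤ P.natDegree) (hz : ∀ z ∈ P.roots, ‖z‖ ≤ 1) {w : ℂ}
    (hw : w ∈ P.derivative.roots) : ‖w‖ ≤ 1 := by
  have hP0 : P ≠ 0 := by rintro rfl; simp at hn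
  have hd0 : P.derivative ≠ 0 := by
    intro h
    have := derivative_eq_zero.mp h
    omega
  have h1 : w ∈ P.derivative.rootSet ℂ := by
    rw [mem_rootSet']
    simp only [Algebra.algebraMap_self, map_id, coe_aeval_eq_eval]
    exact ⟨hd0, (mem_roots hd0).mp hw⟩
  have h2 := rootSet_derivative_subset_convexHull_rootSet (P := P) (by
    rw [← natDegree_pos_iff_degree_pos]; omega) h1
  have h3 : P.rootSet ℂ ⊆ Metric.closedBall 0 1 := by
    intro v hv
    rw [mem_rootSet'] at hv
    simp only [Algebra.algebraMap_self, map_id, coe_aeval_eq_eval] at hv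
    rw [mem_closedBall_zero_iff]
    exact hz v ((mem_roots hP0).mpr hv.2)
  have h4 := convexHull_min h3 (convex_closedBall (0 : ℂ) 1) h2
  rwa [mem_closedBall_zero_iff] at h4

theorem norm_sum_le (W : Multiset ℂ) : ‖W.sum‖ ≤ (W.map (fun w => ‖w‖)).sum := by
  induction W using Multiset.induction_on with
  | empty => simp
  | cons w W ih =>
    rw [Multiset.sum_cons, Multiset.map_cons, Multiset.sum_cons]
    exact (norm_add_le _ _).trans (by linarith)

/-- Let all zeros of `P` lie in the closed unit disc and let `P'(a) ≠ 0`. Then `Σ(P, a)` is at least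
`|P''(a)/P'(a)|` and at least `|n - 1 - a P''(a)/P'(a)|`. -/
theorem result (P : ℂ[X]) (hn : 2 ≤ P.natDegree) (hz : ∀ z ∈ P.roots, ‖z‖ ≤ 1) (a : ℂ)
    (hd : P.derivative.eval a ≠ 0) :
    ENNReal.ofReal ‖P.derivative.derivative.eval a / P.derivative.eval a‖ ≤ Sigma P a ∧
    ENNReal.ofReal ‖((P.natDegree - 1 : ℕ) : ℂ) -
      a * (P.derivative.derivative.eval a / P.derivative.eval a)‖ ≤ Sigma P a := by
  have hd0 : P.derivative ≠ 0 := by
    intro h
    rw [h] at hd
    simp at hd
  have hsplit : P.derivative.Splits := IsAlgClosed.splits _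
  have hsum := hsplit.eval_derivative_div_eval_of_ne_zero hd
  have hcard : Multiset.card P.derivative.roots = P.natDegree - 1 := by
    rw [splits_iff_card_roots.mp hsplit, natDegree_derivative]
  have hle : ∀ w ∈ P.derivative.roots, ‖w‖ ≤ 1 := fun w hw => crit_le hn hz hw
  have hne : ∀ w ∈ P.derivative.roots, a - w ≠ 0 := by
    intro w hw h0
    apply hd
    rw [sub_eq_zero.mp h0]
    exact (mem_roots hd0).mp hw
  have h2 : Sigma P a = ENNReal.ofReal (P.derivative.roots.map (fun w => ‖a - w‖⁻¹)).sum := by
    unfold Sigma
    clear hsum hcard hle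
    revert hne
    generalize P.derivative.roots = M
    intro hne
    induction M using Multiset.induction_on with
    | empty => simp
    | cons w M ih =>
      rw [Multiset.map_cons, Multiset.sum_cons, Multiset.map_cons, Multiset.sum_cons,
        ih (fun v hv => hne v (Multiset.mem_cons_of_mem hv)), ENNReal.ofReal_add (by positivity)]
      · congr 1
        rw [ENNReal.ofReal_inv_of_pos (norm_pos_iff.mpr (hne w (Multiset.mem_cons_self _ _))),
          ofReal_norm]
      · apply Multiset.sum_nonneg
        intro x hx
        obtain ⟨v, _, rfl⟩ := Multiset.mem_map.mp hx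
        positivity
  rw [h2, hsum]
  constructor
  · apply ENNReal.ofReal_le_ofReal
    refine (norm_sum_le _).trans (le_of_eq ?_)
    rw [Multiset.map_map]
    congr 1
    apply Multiset.map_congr rfl
    intro w _
    simp [norm_inv]
  · apply ENNReal.ofReal_le_ofReal
    have h3 : ((P.natDegree - 1 : ℕ) : ℂ) - a * (P.derivative.roots.map fun z => 1 / (a - z)).sum =
        (P.derivative.roots.map fun w => -w / (a - w)).sum := by
      rw [← hcard]
      clear hsum hcard hle h2
      revert hne
      generalize P.derivative.roots = M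
      intro hne
      induction M using Multiset.induction_on with
      | empty => simp
      | cons w M ih =>
        have ih' := ih (fun v hv => hne v (Multiset.mem_cons_of_mem hv))
        have h4 := hne w (Multiset.mem_cons_self _ _)
        rw [Multiset.map_cons, Multiset.sum_cons, Multiset.map_cons, Multiset.sum_cons, ← ih',
          Multiset.card_cons]
        push_cast
        field_simp
        ring
    rw [h3]
    refine (norm_sum_le _).trans ?_
    rw [Multiset.map_map]
    apply Multiset.sum_map_le_sum_map
    intro w hw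
    simp only [Function.comp]
    rw [norm_div, norm_neg, div_eq_mul_inv]
    exact mul_le_of_le_one_left (by positivity) (hle w hw)

end Pool.Agent.Results.MP_172a45_an.LensCriterion
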